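import Pool.Agent.V11281.FTVS.NotLC

/-!
# The `k`-property of all levels `sp n`
-/

set_option autoImplicit false

open Set Topology

namespace Pool.Agent.Results.MP_7b06ad_gt.LevelFourKSpace

open Pool.Agent.V11281.FTVS

universe u

/-- **MP_7b06ad_gt, Q1 (yes).** If `X` is metrizable and `sp 4` is a `k`-space, then every `sp n`
is a `k`-space; moreover `X` is separable and locally compact. -/
theorem result {X : Type u} [TopologicalSpace X] [TopologicalSpace.MetrizableSpace X]
    (h : IsKSpace (sp X 4)) :
    (∀ n, IsKSpace (sp X n)) ∧ TopologicalSpace.SeparableSpace X ∧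
      WeaklyLocallyCompactSpace X :=
  ⟨(main (by norm_num) h).2.2, (main (by norm_num) h).1, (main (by norm_num) h).2.1⟩

end Pool.Agent.Results.MP_7b06ad_gt.LevelFourKSpace
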